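import Pool.Agent.Helper13.RG.Stmts

/-! # MP_8312c9_nt, rigidity: module GE3 -/

set_option autoImplicit false

open scoped Classical

namespace Pool.Agent.Helper13.RG

open Pool.Agent.Helper14.BSC Pool.Agent.Helper13.ZL IsDedekindDomain

section

variable {k : Type} [Field k] [NumberField k]

lemma ge3_fin (v : Pl k) : Finite (NumberField.RingOfIntegers k ⧸ v.asIdeal) := by
  rw [← Ideal.absNorm_ne_zero_iff]
  rw [Ne, Ideal.absNorm_eq_zero_iff]
  exact v.ne_bot

lemma ge3_q2 (v : Pl k) : 2 ≤ q v := by
  have h := ge3_fin v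
  have h1 : q v = Nat.card (NumberField.RingOfIntegers k ⧸ v.asIdeal) := rfl
  rw [h1]
  have : Nontrivial (NumberField.RingOfIntegers k ⧸ v.asIdeal) :=
    Ideal.Quotient.nontrivial_iff.2 v.isPrime.ne_top
  exact Finite.one_lt_card

/-- units are `q - 1`-st roots of unity modulo `v` -/
lemma ge3_pow (v : Pl k) (t : k) (ht : v.valuation k t = 1) :
    v.valuation k (t ^ (q v - 1) - 1) < 1 := by
  obtain ⟨w, hw⟩ := HeightOneSpectrum.exists_valuation_sub_lt_of_integer v (x := t) ht.le 1
  have hw1 : v.valuation k (algebraMap (NumberField.RingOfIntegers k) k w - t) < 1 := by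
    simpa using hw
  have hfin := ge3_fin v
  let _ := Ideal.Quotient.field v.asIdeal
  let _ : Fintype (NumberField.RingOfIntegers k ⧸ v.asIdeal) := Fintype.ofFinite _
  have hcard : Fintype.card (NumberField.RingOfIntegers k ⧸ v.asIdeal) = q v := by
    rw [← Nat.card_eq_fintype_card]; rfl
  have hne0 : Ideal.Quotient.mk v.asIdeal w ≠ 0 := by
    intro h0
    rw [Ideal.Quotient.eq_zero_iff_mem] at h0
    have h1 : v.valuation k (algebraMap (NumberField.RingOfIntegers k) k w) < 1 := by
      rw [HeightOneSpectrum.valuation_lt_one_iff_mem]; exact h0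
    have h2 : v.valuation k t < 1 := by
      have e : t = algebraMap (NumberField.RingOfIntegers k) k w +
          -(algebraMap (NumberField.RingOfIntegers k) k w - t) := by ring
      rw [e]
      apply Valuation.map_add_lt _ h1
      rw [Valuation.map_neg]; exact hw1
    exact absurd ht h2.ne
  have h6 := FiniteField.pow_card_sub_one_eq_one _ hne0
  rw [hcard, ← map_pow, ← map_one (Ideal.Quotient.mk v.asIdeal), Ideal.Quotient.eq] at h6
  have h7 : v.valuation k (algebraMap (NumberField.RingOfIntegers k) k w ^ (q v - 1) - 1) < 1 := by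
    rw [← map_pow, ← map_one (algebraMap (NumberField.RingOfIntegers k) k), ← map_sub,
      HeightOneSpectrum.valuation_lt_one_iff_mem]
    exact h6
  have hle : v.valuation k (algebraMap (NumberField.RingOfIntegers k) k w) ≤ 1 :=
    HeightOneSpectrum.valuation_le_one v w
  have h8 : v.valuation k (t ^ (q v - 1) -
      algebraMap (NumberField.RingOfIntegers k) k w ^ (q v - 1)) < 1 := by
    rw [← Commute.mul_geom_sum₂ (Commute.all t _) (q v - 1), map_mul]
    have h9 : v.valuation k (∑ i ∈ Finset.range (q v - 1), t ^ i *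
        algebraMap (NumberField.RingOfIntegers k) k w ^ (q v - 1 - 1 - i)) ≤ 1 := by
      apply Valuation.map_sum_le
      intro i _
      rw [map_mul, map_pow, map_pow, ht, one_pow, one_mul]
      exact pow_le_one₀ zero_le hle
    have h10 : v.valuation k (t - algebraMap (NumberField.RingOfIntegers k) k w) < 1 := by
      rw [← Valuation.map_neg, neg_sub]; exact hw1
    calc v.valuation k (t - algebraMap (NumberField.RingOfIntegers k) k w) *
        v.valuation k (∑ i ∈ Finset.range (q v - 1), t ^ i *
          algebraMap (NumberField.RingOfIntegers k) k w ^ (q v - 1 - 1 - i))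
        ≤ v.valuation k (t - algebraMap (NumberField.RingOfIntegers k) k w) * 1 :=
          mul_le_mul_right h9 _
      _ < 1 := by rw [mul_one]; exact h10
  have e : t ^ (q v - 1) - 1 = (t ^ (q v - 1) -
      algebraMap (NumberField.RingOfIntegers k) k w ^ (q v - 1)) +
      (algebraMap (NumberField.RingOfIntegers k) k w ^ (q v - 1) - 1) := by ring
  rw [e]
  exact Valuation.map_add_lt _ h8 h7

end

theorem st_GE3 (hD : ST_DLIB) : ST_GE3 := by
  intro k _ _
  obtain ⟨hsub, -, hfin, -⟩ := hD k
  refine hsub {v : Pl k | v.valuation k (2 : k) < 1} _ ?_ (hfin _ ?_)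
  · intro v hv
    by_contra hcon
    have hle : v.valuation k (2 : k) ≤ 1 := by
      have h := HeightOneSpectrum.valuation_le_one (K := k) v (2 : NumberField.RingOfIntegers k)
      have e : (2 : k) = algebraMap (NumberField.RingOfIntegers k) k 2 := by rw [map_ofNat]
      rw [e]
      exact h
    have h2 : v.valuation k (2 : k) = 1 := le_antisymm hle (not_lt.1 hcon)
    have hq := ge3_q2 v
    obtain ⟨t, ht⟩ := hv (q v - 1) (by omega)
    have ht' : v.valuation k (t ^ (q v - 1) / 2 - 1) < 1 := ht
    have h3 : v.valuation k (t ^ (q v - 1) / 2) = 1 := by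
      have e : t ^ (q v - 1) / 2 = (t ^ (q v - 1) / 2 - 1) + 1 := by ring
      rw [e, Valuation.map_add_eq_of_lt_right, map_one]
      rw [map_one]; exact ht'
    have h4 : v.valuation k t = 1 := by
      rw [map_div₀, h2, div_one, map_pow] at h3
      exact (pow_eq_one_iff_of_nonneg zero_le (by omega)).1 h3
    have h5 := ge3_pow v t h4
    have h6 : v.valuation k ((t ^ (q v - 1) - 1) / 2) < 1 := by
      rw [map_div₀, h2, div_one]; exact h5
    have h7 : v.valuation k (1 / 2 : k) < 1 := by
      have e : (1 / 2 : k) = (t ^ (q v - 1) - 1) / 2 + -(t ^ (q v - 1) / 2 - 1) := by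
        ring
      rw [e]
      apply Valuation.map_add_lt _ h6
      rw [Valuation.map_neg]; exact ht'
    rw [map_div₀, h2, map_one, div_one] at h7
    exact lt_irrefl _ h7
  · have h20 : (2 : NumberField.RingOfIntegers k) ≠ 0 := two_ne_zero
    have hI : Ideal.span {(2 : NumberField.RingOfIntegers k)} ≠ ⊥ := by
      rw [Ne, Ideal.span_singleton_eq_bot]; exact h20
    refine (Ideal.finite_factors hI).subset ?_
    intro v hv
    have hv' : v.valuation k (2 : k) < 1 := hv
    have e : (2 : k) = algebraMap (NumberField.RingOfIntegers k) k 2 := by rw [map_ofNat]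
    rw [e, HeightOneSpectrum.valuation_lt_one_iff_mem] at hv'
    show v.asIdeal ∣ Ideal.span {(2 : NumberField.RingOfIntegers k)}
    rw [Ideal.dvd_span_singleton]
    exact hv'

end Pool.Agent.Helper13.RG
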